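import Mathlib

/-!
# SP Tau2: the second moment of the divisor function

`∑_{n ≤ Z} τ(n)^2 = ∑_{a, b ≤ Z} #{n ≤ Z : a | n, b | n} ≤ ∑_{a,b ≤ Z} Z/lcm(a,b)`; with `g = gcd(a,b)`, `a = g a'`, `b = g b'`:
`lcm = g a' b'`, so the sum is `≤ Z ∑_{g ≤ Z} 1/g ∑_{a' ≤ Z} 1/a' ∑_{b' ≤ Z} 1/b' ≤ Z (1 + log Z)^3`
(`(a, b) ↦ (gcd, a/gcd, b/gcd)` is injective).
-/

set_option autoImplicit false

namespace Pool.Agent.H76.SP

open Finset

private theorem Tau2_card (Z n : ℕ) (hn : n ∈ Icc 1 Z) :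
    ((n.divisors.card : ℕ) : ℝ) = ∑ a ∈ Icc 1 Z, if a ∣ n then (1 : ℝ) else 0 := by
  rw [mem_Icc] at hn
  rw [← sum_filter, sum_const, nsmul_eq_mul, mul_one]
  congr 2
  ext a
  rw [Nat.mem_divisors, mem_filter, mem_Icc]
  constructor
  · rintro ⟨h1, h2⟩
    have h3 := Nat.le_of_dvd (by omega) h1
    have h4 := Nat.pos_of_dvd_of_pos h1 (by omega)
    exact ⟨⟨h4, by omega⟩, h1⟩
  · rintro ⟨h1, h2⟩
    exact ⟨h2, by omega⟩

private theorem Tau2_count (Z a b : ℕ) :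
    ∑ n ∈ Icc 1 Z, (if a ∣ n then (1 : ℝ) else 0) * (if b ∣ n then (1 : ℝ) else 0) ≤
      (Z : ℝ) / (Nat.lcm a b : ℕ) := by
  have h1 : ∑ n ∈ Icc 1 Z, (if a ∣ n then (1 : ℝ) else 0) * (if b ∣ n then (1 : ℝ) else 0) =
      (((Ioc 0 Z).filter (fun n => Nat.lcm a b ∣ n)).card : ℝ) := by
    rw [← Finset.Icc_add_one_left_eq_Ioc, zero_add, card_filter]
    push_cast
    refine sum_congr rfl fun n _ => ?_
    by_cases ha : a ∣ n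
    · by_cases hb : b ∣ n
      · rw [if_pos ha, if_pos hb, if_pos (Nat.lcm_dvd ha hb), mul_one]
      · rw [if_pos ha, if_neg hb, mul_zero,
          if_neg (fun h => hb ((Nat.dvd_lcm_right a b).trans h))]
    · rw [if_neg ha, zero_mul, if_neg (fun h => ha ((Nat.dvd_lcm_left a b).trans h))]
  rw [h1, Nat.Ioc_filter_dvd_card_eq_div]
  exact Nat.cast_div_le

private theorem Tau2_lcm (Z : ℕ) :
    ∑ a ∈ Icc 1 Z, ∑ b ∈ Icc 1 Z, (1 : ℝ) / (Nat.lcm a b : ℕ) ≤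
      (∑ g ∈ Icc 1 Z, (1 : ℝ) / g) ^ 3 := by
  classical
  set φ : ℕ × ℕ → ℕ × ℕ × ℕ := fun p =>
    (Nat.gcd p.1 p.2, p.1 / Nat.gcd p.1 p.2, p.2 / Nat.gcd p.1 p.2) with hφ
  set W : ℕ × ℕ × ℕ → ℝ := fun t => (1 : ℝ) / t.1 * ((1 : ℝ) / t.2.1 * ((1 : ℝ) / t.2.2)) with hW
  have hinj : Set.InjOn φ ((Icc 1 Z ×ˢ Icc 1 Z : Finset (ℕ × ℕ)) : Set (ℕ × ℕ)) := by
    rintro ⟨a, b⟩ _ ⟨a', b'⟩ _ h
    simp only [hφ, Prod.mk.injEq] at h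
    obtain ⟨h1, h2, h3⟩ := h
    have e1 : Nat.gcd a b * (a / Nat.gcd a b) = a := Nat.mul_div_cancel' (Nat.gcd_dvd_left a b)
    have e2 : Nat.gcd a b * (b / Nat.gcd a b) = b := Nat.mul_div_cancel' (Nat.gcd_dvd_right a b)
    have e3 : Nat.gcd a' b' * (a' / Nat.gcd a' b') = a' :=
      Nat.mul_div_cancel' (Nat.gcd_dvd_left a' b')
    have e4 : Nat.gcd a' b' * (b' / Nat.gcd a' b') = b' :=
      Nat.mul_div_cancel' (Nat.gcd_dvd_right a' b')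
    rw [Prod.mk.injEq]
    constructor
    · rw [← e1, ← e3, h2, h1]
    · rw [← e2, ← e4, h3, h1]
  rw [← sum_product']
  have h1 : ∑ p ∈ Icc 1 Z ×ˢ Icc 1 Z, (1 : ℝ) / (Nat.lcm p.1 p.2 : ℕ) =
      ∑ p ∈ Icc 1 Z ×ˢ Icc 1 Z, W (φ p) := by
    refine sum_congr rfl fun p hp => ?_
    rw [mem_product, mem_Icc, mem_Icc] at hp
    obtain ⟨a, b⟩ := p
    simp only at hp
    simp only [hW, hφ]
    have hg : 0 < Nat.gcd a b := Nat.gcd_pos_of_pos_left _ (by omega)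
    have e1 : Nat.gcd a b * (a / Nat.gcd a b) = a := Nat.mul_div_cancel' (Nat.gcd_dvd_left a b)
    have e2 : Nat.gcd a b * (b / Nat.gcd a b) = b := Nat.mul_div_cancel' (Nat.gcd_dvd_right a b)
    set g := Nat.gcd a b with hgdef
    set u := a / g with hu
    set v := b / g with hv
    have e3 : Nat.lcm a b = g * (u * v) := by
      have h2 : g * Nat.lcm a b = a * b := Nat.gcd_mul_lcm a b
      apply Nat.eq_of_mul_eq_mul_left hg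
      rw [h2, ← e1, ← e2]
      ring
    rw [e3]
    push_cast
    rw [one_div_mul_one_div, one_div_mul_one_div]
  rw [h1, ← sum_image hinj]
  have h2 : (∑ g ∈ Icc 1 Z, (1 : ℝ) / g) ^ 3 = ∑ t ∈ Icc 1 Z ×ˢ (Icc 1 Z ×ˢ Icc 1 Z), W t := by
    rw [sum_product]
    simp only [hW]
    have h3 : ∀ g ∈ Icc 1 Z, ∑ t ∈ Icc 1 Z ×ˢ Icc 1 Z,
        (1 : ℝ) / (g : ℕ) * ((1 : ℝ) / (t.1 : ℕ) * ((1 : ℝ) / (t.2 : ℕ))) =
        (1 : ℝ) / g * (∑ g ∈ Icc 1 Z, (1 : ℝ) / g) ^ 2 := by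
      intro g _
      rw [← mul_sum, sum_product, sq, sum_mul_sum]
    rw [sum_congr rfl h3, ← sum_mul]
    ring
  rw [h2]
  refine sum_le_sum_of_subset_of_nonneg ?_ (fun t _ _ => by simp only [hW]; positivity)
  intro t ht
  rw [mem_image] at ht
  obtain ⟨⟨a, b⟩, hp, rfl⟩ := ht
  rw [mem_product, mem_Icc, mem_Icc] at hp
  simp only at hp
  simp only [hφ, mem_product, mem_Icc]
  have hg : 0 < Nat.gcd a b := Nat.gcd_pos_of_pos_left _ (by omega)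
  have hga : Nat.gcd a b ≤ a := Nat.gcd_le_left b (by omega)
  have hgb : Nat.gcd a b ≤ b := Nat.gcd_le_right a (by omega)
  have h3 : 0 < a / Nat.gcd a b := Nat.div_pos hga hg
  have h4 : 0 < b / Nat.gcd a b := Nat.div_pos hgb hg
  have h5 : a / Nat.gcd a b ≤ a := Nat.div_le_self _ _
  have h6 : b / Nat.gcd a b ≤ b := Nat.div_le_self _ _
  omega

private theorem Tau2_harm (q : ℕ) : ∑ j ∈ Icc 1 q, (1 : ℝ) / j ≤ 1 + Real.log q := by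
  have h := harmonic_le_one_add_log q
  rw [harmonic_eq_sum_Icc] at h
  push_cast at h
  refine le_trans (le_of_eq ?_) h
  exact sum_congr rfl fun j _ => by rw [one_div]

theorem tau_sq (Z : ℕ) :
    ∑ n ∈ Icc 1 Z, ((n.divisors.card : ℕ) : ℝ) ^ 2 ≤ Z * (1 + Real.log Z) ^ 3 := by
  have h1 : ∑ n ∈ Icc 1 Z, ((n.divisors.card : ℕ) : ℝ) ^ 2 =
      ∑ a ∈ Icc 1 Z, ∑ b ∈ Icc 1 Z, ∑ n ∈ Icc 1 Z,
        (if a ∣ n then (1 : ℝ) else 0) * (if b ∣ n then (1 : ℝ) else 0) := by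
    have h2 : ∀ n ∈ Icc 1 Z, ((n.divisors.card : ℕ) : ℝ) ^ 2 =
        ∑ a ∈ Icc 1 Z, ∑ b ∈ Icc 1 Z,
          (if a ∣ n then (1 : ℝ) else 0) * (if b ∣ n then (1 : ℝ) else 0) := by
      intro n hn
      rw [Tau2_card Z n hn, sq, sum_mul_sum]
    rw [sum_congr rfl h2, sum_comm]
    exact sum_congr rfl fun a _ => sum_comm
  rw [h1]
  have h3 : ∑ a ∈ Icc 1 Z, ∑ b ∈ Icc 1 Z, ∑ n ∈ Icc 1 Z,
        (if a ∣ n then (1 : ℝ) else 0) * (if b ∣ n then (1 : ℝ) else 0) ≤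
      ∑ a ∈ Icc 1 Z, ∑ b ∈ Icc 1 Z, (Z : ℝ) * ((1 : ℝ) / (Nat.lcm a b : ℕ)) := by
    refine sum_le_sum fun a _ => sum_le_sum fun b _ => ?_
    rw [mul_one_div]
    exact Tau2_count Z a b
  refine h3.trans ?_
  have h4 : ∑ a ∈ Icc 1 Z, ∑ b ∈ Icc 1 Z, (Z : ℝ) * ((1 : ℝ) / (Nat.lcm a b : ℕ)) =
      Z * ∑ a ∈ Icc 1 Z, ∑ b ∈ Icc 1 Z, (1 : ℝ) / (Nat.lcm a b : ℕ) := by
    rw [mul_sum]
    exact sum_congr rfl fun a _ => by rw [mul_sum]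
  rw [h4]
  refine mul_le_mul_of_nonneg_left ((Tau2_lcm Z).trans ?_) (Nat.cast_nonneg _)
  exact pow_le_pow_left₀ (sum_nonneg fun j _ => by positivity) (Tau2_harm Z) 3

end Pool.Agent.H76.SP
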